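import Pool.Agent.W543.KU.SignCyc

/-!
# The sign conjecture: coefficients, stable subspaces and characteristic polynomials

For a smooth proper variety `X` over an algebraically closed field and a Weil cohomology theory with
coefficient field `K` of characteristic zero, the following are equivalent: the even projector is
algebraic; it is a `K`-linear combination of classes of cycles; every subspace of the cohomology
which is stable under the correspondences of degree zero is the direct sum of its even and its odd
part; every even and every odd degree are separated by the characteristic polynomials of some cycle;
one rational cycle separates all even from all odd degrees.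
-/

open Pool.Agent.H914 Pool.Agent.H447 Pool.Agent.W543.KU WeilCohomology VarClass Obj

universe u v

namespace Pool.Agent.Results.MP_56c18a_ag.SignCriteria

/-- **Criteria for the sign conjecture.** -/
theorem result {k : Type u} [Field k] [IsAlgClosed k] {𝒱 : VarClass k} {ops : CycleOps 𝒱}
    (W : WeilCohomology.{u, v} ops) (X : 𝒱.Obj) :
    [SignStd W X,
     SignSpan W X,
     ∀ N, IsStableSub W X N → IsParitySub (W.gr X) N,
     ∀ i j, Even i → Odd j → ∃ z, (X.prod X).IsCyc X.dim z ∧ Separates W X z i j,
     ∃ z, (X.prod X).IsCyc X.dim z ∧ ∀ i j, Even i → Odd j → Separates W X z i j].TFAE :=
  sign_tfae W X

end Pool.Agent.Results.MP_56c18a_ag.SignCriteria
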