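import Pool.Agent.W543.KU.ZetaCyc

/-!
# The sign conjecture and the zeta functions of correspondences

For a cycle `z` of codimension `n = dim X` on `X × X` the zeta function
`exp(∑_{m ≥ 1} (z^m · Δ) t^m / m)`, defined by intersection numbers with the diagonal only, is a
rational function over the rational numbers. Let `D` be the largest value of the degree of the
numerator plus the degree of the denominator of such a function in lowest terms. In every Weil
cohomology theory `D` is at most the total Betti number of `X`, with equality if and only if the
even Kunneth projector is algebraic.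
-/

open Pool.Agent.H914 Pool.Agent.H447 Pool.Agent.W543.KU WeilCohomology VarClass Obj

universe u v

namespace Pool.Agent.Results.MP_56c18a_ag.ZetaDegree

/-- **The sign conjecture by the degrees of zeta functions.** -/
theorem result {k : Type u} [Field k] [IsAlgClosed k] {𝒱 : VarClass k} {ops : CycleOps 𝒱}
    (X : 𝒱.Obj) (W₀ : WeilCohomology.{u, v} ops) :
    (∀ z, (X.prod X).IsCyc X.dim z → ∃ d, HasRatDegree (zetaSeries ops X z) d) ∧
    ∃ D, IsGreatest {d | ∃ z, (X.prod X).IsCyc X.dim z ∧ HasRatDegree (zetaSeries ops X z) d} D ∧
      ∀ W : WeilCohomology.{u, v} ops, D ≤ totalBetti W X ∧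
        (SignStd W X ↔ D = totalBetti W X) :=
  zeta_degree X W₀

end Pool.Agent.Results.MP_56c18a_ag.ZetaDegree
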